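import Pool.Agent.Helper79.PK.Defs

/-!
# PK-W: widths of a convex set of perimeter one in three directions
-/

namespace Pool.Agent.Helper79.PK

open Pool.Agent.Helper16.Disk7 MeasureTheory Metric

namespace Widths

/-- The projection on the direction of angle `φ`. -/
noncomputable def pr (φ : ℝ) (z : ℂ) : ℝ := z.re * Real.cos φ + z.im * Real.sin φ

lemma continuous_pr (φ : ℝ) : Continuous (pr φ) := by
  unfold pr
  fun_prop

lemma supportFn_eq (K : Set ℂ) (θ : ℝ) : supportFn K θ = sSup (pr θ '' K) := rfl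

lemma pr_le {K : Set ℂ} (hK : IsCompact K) {z : ℂ} (hz : z ∈ K) (φ : ℝ) :
    pr φ z ≤ supportFn K φ := by
  rw [supportFn_eq]
  exact le_csSup (hK.image (continuous_pr φ)).bddAbove (Set.mem_image_of_mem _ hz)

lemma exists_pr {K : Set ℂ} (hK : IsCompact K) (hne : K.Nonempty) (φ : ℝ) :
    ∃ z ∈ K, pr φ z = supportFn K φ := by
  have h := (hK.image (continuous_pr φ)).sSup_mem (hne.image _)
  obtain ⟨z, hz, h⟩ := h
  exact ⟨z, hz, by rw [supportFn_eq, h]⟩

lemma pr_add_pi (φ : ℝ) (z : ℂ) : pr (φ + Real.pi) z = - pr φ z := by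
  unfold pr
  rw [Real.cos_add_pi, Real.sin_add_pi]
  ring

lemma periodic_supportFn (K : Set ℂ) : Function.Periodic (supportFn K) (2 * Real.pi) := by
  intro θ
  unfold supportFn
  rw [Real.cos_add_two_pi, Real.sin_add_two_pi]

/-- An angle where the sum of six values of the support function is at most the mean. -/
lemma exists_angle {K : Set ℂ} (hK : IsUnitConvexSet K) :
    ∃ θ : ℝ, supportFn K θ + supportFn K (θ + Real.pi / 3) + supportFn K (θ + 2 * Real.pi / 3)
      + supportFn K (θ + Real.pi) + supportFn K (θ + 4 * Real.pi / 3)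
      + supportFn K (θ + 5 * Real.pi / 3) ≤ 3 / Real.pi := by
  have hpi := Real.pi_pos
  have hper := periodic_supportFn K
  have hint0 : IntervalIntegrable (supportFn K) volume 0 (2 * Real.pi) := by
    by_contra h
    have h1 := hK.perimeter_eq
    unfold perimeter at h1
    rw [intervalIntegral.integral_undef h] at h1
    exact zero_ne_one h1
  have hint : ∀ c : ℝ, IntervalIntegrable (fun θ => supportFn K (θ + c)) volume 0
      (2 * Real.pi) := by
    intro c
    have h := hper.intervalIntegrable₀ (by positivity) hint0 c (c + 2 * Real.pi)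
    have h2 := h.comp_add_right c
    simpa using h2
  have hval : ∀ c : ℝ, ∫ θ in (0 : ℝ)..(2 * Real.pi), supportFn K (θ + c) = 1 := by
    intro c
    rw [intervalIntegral.integral_comp_add_right (fun x => supportFn K x) c]
    have h := hper.intervalIntegral_add_eq c 0
    have h1 := hK.perimeter_eq
    unfold perimeter at h1
    rw [zero_add] at h
    rw [zero_add, add_comm (2 * Real.pi) c, h, h1]
  by_contra hcon
  push Not at hcon
  have h0 : IntervalIntegrable (supportFn K) volume 0 (2 * Real.pi) := hint0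
  set F : ℝ → ℝ := fun θ => supportFn K θ + supportFn K (θ + Real.pi / 3)
      + supportFn K (θ + 2 * Real.pi / 3)
      + supportFn K (θ + Real.pi) + supportFn K (θ + 4 * Real.pi / 3)
      + supportFn K (θ + 5 * Real.pi / 3) with hF
  have hFint : IntervalIntegrable F volume 0 (2 * Real.pi) := by
    rw [hF]
    exact ((((h0.add (hint _)).add (hint _)).add (hint _)).add (hint _)).add (hint _)
  have hFval : ∫ θ in (0 : ℝ)..(2 * Real.pi), F θ = 6 := by
    have h1 := hK.perimeter_eq
    unfold perimeter at h1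
    rw [hF]
    rw [intervalIntegral.integral_add ((((h0.add (hint _)).add (hint _)).add (hint _)).add
        (hint _)) (hint _),
      intervalIntegral.integral_add (((h0.add (hint _)).add (hint _)).add (hint _)) (hint _),
      intervalIntegral.integral_add ((h0.add (hint _)).add (hint _)) (hint _),
      intervalIntegral.integral_add (h0.add (hint _)) (hint _),
      intervalIntegral.integral_add h0 (hint _), h1, hval, hval, hval, hval, hval]
    norm_num
  have hpos : 0 < ∫ θ in (0 : ℝ)..(2 * Real.pi), (F θ - 3 / Real.pi) := by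
    apply intervalIntegral.intervalIntegral_pos_of_pos
    · exact hFint.sub intervalIntegrable_const
    · intro x
      have := hcon x
      simp only [hF]
      linarith
    · positivity
  rw [intervalIntegral.integral_sub hFint intervalIntegrable_const, hFval,
    intervalIntegral.integral_const] at hpos
  have h6 : (2 * Real.pi - 0) • (3 / Real.pi) = 6 := by
    rw [smul_eq_mul]
    field_simp
    ring
  rw [h6] at hpos
  linarith

end Widths

open Widths

/-- PK-W. Every convex set of perimeter one can be moved by a rigid motion so that its widths in the three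
directions of `X`, `X + Y`, `Y` have sum at most `3 / π`. -/
theorem widths {K : Set ℂ} (hK : IsUnitConvexSet K) :
    ∃ g : ℂ → ℂ, IsRigidMotion g ∧ ∃ w0 w1 w2 ζ : ℝ, 0 ≤ w0 ∧ 0 ≤ w1 ∧ 0 ≤ w2 ∧
      w0 + w1 + w2 ≤ 3 / Real.pi ∧ |w0 - w2| ≤ w1 ∧ 0 ≤ ζ ∧ ζ ≤ 1 ∧
      ∀ z ∈ g '' K, 0 ≤ X z ∧ X z ≤ w0 ∧ 0 ≤ Y z ∧ Y z ≤ w2 ∧ ζ ≤ X z + Y z ∧
        X z + Y z ≤ ζ + w1 := by
  obtain ⟨θ, hθ⟩ := exists_angle hK
  have hc := hK.isCompact
  have hne := hK.nonempty
  have hs3 : √3 * √3 = 3 := Real.mul_self_sqrt (by norm_num)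
  have hs3pos : 0 < √3 := Real.sqrt_pos.mpr (by norm_num)
  -- the six values of the support function
  set h0 := supportFn K θ with hh0
  set h1 := supportFn K (θ + Real.pi / 3) with hh1
  set h2 := supportFn K (θ + 2 * Real.pi / 3) with hh2
  set h3 := supportFn K (θ + Real.pi) with hh3
  set h4 := supportFn K (θ + 4 * Real.pi / 3) with hh4
  set h5 := supportFn K (θ + 5 * Real.pi / 3) with hh5
  have e4 : θ + 4 * Real.pi / 3 = (θ + Real.pi / 3) + Real.pi := by ring
  have e5 : θ + 5 * Real.pi / 3 = (θ + 2 * Real.pi / 3) + Real.pi := by ring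
  have b0 : ∀ z ∈ K, pr θ z ≤ h0 := fun z hz => pr_le hc hz _
  have b1 : ∀ z ∈ K, pr (θ + Real.pi / 3) z ≤ h1 := fun z hz => pr_le hc hz _
  have b2 : ∀ z ∈ K, pr (θ + 2 * Real.pi / 3) z ≤ h2 := fun z hz => pr_le hc hz _
  have b3 : ∀ z ∈ K, - h3 ≤ pr θ z := fun z hz => by
    have := pr_le hc hz (θ + Real.pi)
    rw [pr_add_pi] at this
    linarith
  have b4 : ∀ z ∈ K, - h4 ≤ pr (θ + Real.pi / 3) z := fun z hz => by
    have := pr_le hc hz (θ + 4 * Real.pi / 3)
    rw [e4, pr_add_pi, ← e4] at this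
    linarith
  have b5 : ∀ z ∈ K, - h5 ≤ pr (θ + 2 * Real.pi / 3) z := fun z hz => by
    have := pr_le hc hz (θ + 5 * Real.pi / 3)
    rw [e5, pr_add_pi, ← e5] at this
    linarith
  obtain ⟨z0, hz0, v0⟩ := exists_pr hc hne θ
  obtain ⟨z1, hz1, v1⟩ := exists_pr hc hne (θ + Real.pi / 3)
  obtain ⟨z2, hz2, v2⟩ := exists_pr hc hne (θ + 2 * Real.pi / 3)
  obtain ⟨z3, hz3, v3⟩ := exists_pr hc hne (θ + Real.pi)
  obtain ⟨z4, hz4, v4⟩ := exists_pr hc hne (θ + 4 * Real.pi / 3)
  obtain ⟨z5, hz5, v5⟩ := exists_pr hc hne (θ + 5 * Real.pi / 3)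
  rw [pr_add_pi] at v3
  rw [e4, pr_add_pi, ← e4] at v4
  rw [e5, pr_add_pi, ← e5] at v5
  -- the middle projection is the sum of the two others
  have key : ∀ z : ℂ, pr (θ + Real.pi / 3) z = pr θ z + pr (θ + 2 * Real.pi / 3) z := by
    intro z
    unfold pr
    have c2 : Real.cos (2 * Real.pi / 3) = -(1 / 2) := by
      rw [show 2 * Real.pi / 3 = Real.pi - Real.pi / 3 by ring, Real.cos_pi_sub,
        Real.cos_pi_div_three]
    have s2 : Real.sin (2 * Real.pi / 3) = √3 / 2 := by
      rw [show 2 * Real.pi / 3 = Real.pi - Real.pi / 3 by ring, Real.sin_pi_sub,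
        Real.sin_pi_div_three]
    rw [Real.cos_add, Real.sin_add, Real.cos_add, Real.sin_add, c2, s2,
      Real.cos_pi_div_three, Real.sin_pi_div_three]
    ring
  -- the rigid motion
  set b : ℂ := ⟨h3, (h5 + h3 / 2) * 2 / √3⟩ with hb
  refine ⟨fun z => (⟨Real.cos θ, - Real.sin θ⟩ : ℂ) * z + b, ⟨⟨Real.cos θ, - Real.sin θ⟩, b,
    ?_, fun z => rfl⟩, h0 + h3, h1 + h4, h2 + h5, - h4 + h3 + h5, ?_, ?_, ?_, ?_, ?_, ?_, ?_, ?_⟩
  · have hn : Complex.normSq (⟨Real.cos θ, - Real.sin θ⟩ : ℂ) = 1 := by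
      rw [Complex.normSq_mk]
      nlinarith [Real.sin_sq_add_cos_sq θ]
    rw [Complex.norm_def, hn, Real.sqrt_one]
  · linarith [b0 z0 hz0, b3 z0 hz0]
  · linarith [b1 z0 hz0, b4 z0 hz0]
  · linarith [b2 z0 hz0, b5 z0 hz0]
  · linarith
  · rw [abs_le]
    constructor
    · -- w2 ≤ w1 + w0
      have k2 := key z2
      have k5 := key z5
      have := b1 z2 hz2
      have := b4 z5 hz5
      have := b3 z2 hz2
      have := b0 z5 hz5
      have := b3 z5 hz5
      have := b0 z2 hz2
      linarith
    · have k0 := key z0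
      have k3 := key z3
      have := b1 z0 hz0
      have := b4 z3 hz3
      have := b5 z0 hz0
      have := b2 z3 hz3
      linarith
  · have k4 := key z4
    have := b3 z4 hz4
    have := b5 z4 hz4
    linarith
  · have k0 := key z0
    have i1 := b4 z0 hz0
    have i2 := b0 z0 hz0
    have i3 := b2 z0 hz0
    have i4 : 3 / Real.pi ≤ 1 := by
      rw [div_le_one Real.pi_pos]
      exact Real.pi_gt_three.le
    have i5 := b1 z0 hz0
    linarith
  · rintro _ ⟨z, hz, rfl⟩
    have hX : X ((⟨Real.cos θ, - Real.sin θ⟩ : ℂ) * z + b) = pr θ z + h3 := by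
      unfold X pr
      simp only [Complex.add_re, Complex.mul_re, hb]
      ring
    have hY : Y ((⟨Real.cos θ, - Real.sin θ⟩ : ℂ) * z + b)
        = pr (θ + 2 * Real.pi / 3) z + h5 := by
      unfold Y pr
      have c2 : Real.cos (2 * Real.pi / 3) = -(1 / 2) := by
        rw [show 2 * Real.pi / 3 = Real.pi - Real.pi / 3 by ring, Real.cos_pi_sub,
          Real.cos_pi_div_three]
      have s2 : Real.sin (2 * Real.pi / 3) = √3 / 2 := by
        rw [show 2 * Real.pi / 3 = Real.pi - Real.pi / 3 by ring, Real.sin_pi_sub,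
          Real.sin_pi_div_three]
      rw [Real.cos_add, Real.sin_add, c2, s2]
      simp only [Complex.add_re, Complex.mul_re, Complex.add_im, Complex.mul_im, hb]
      field_simp
      ring
    have k := key z
    have := b0 z hz
    have := b1 z hz
    have := b2 z hz
    have := b3 z hz
    have := b4 z hz
    have := b5 z hz
    dsimp only
    rw [hX, hY]
    refine ⟨?_, ?_, ?_, ?_, ?_, ?_⟩ <;> linarith

end Pool.Agent.Helper79.PK
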